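import Pool.Agent.Work.MP_10bfef_nt_helper63.Asymp

/-!
# Van Eck's sequence: zeros and new values are rare
-/

namespace Pool.Agent.Results.MP_10bfef_nt.FewValues

open N913ddd84 Finset

/-- For every `ε > 0` and all large `N`: every block of `N` consecutive terms of Van Eck's
sequence contains at most `(1 + ε) N log log N / log N` zeros, and the first `N` terms take at most
`(1 + ε) N log log N / log N` distinct values. -/
theorem result (ε : ℝ) (hε : 0 < ε) : ∃ N₀ : ℕ, ∀ N : ℕ, N₀ ≤ N →
    (∀ s : ℕ, (((Ico s (s + N)).filter (fun n => a n = 0)).card : ℝ) ≤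
      (1 + ε) * N * Real.log (Real.log N) / Real.log N) ∧
    (((range N).image a).card : ℝ) ≤ (1 + ε) * N * Real.log (Real.log N) / Real.log N := by
  obtain ⟨N₀, hN₀⟩ := Pool.Agent.Work.MP_10bfef_nt_helper63.asymp_upper ε hε
  have key : ∀ N : ℕ, N₀ ≤ N → ∀ s : ℕ,
      ((((Ico s (s + N)).filter (fun n => a (n + 1) = 0)).card : ℝ)) + 1 ≤
        (1 + ε) * N * Real.log (Real.log N) / Real.log N := fun N hN s =>
    hN₀ N hN _ ((Pool.Agent.Work.MP_10bfef_nt_helper63.log_factorial_ge _).trans
      (Pool.Agent.Work.MP_10bfef_nt_helper63.zeros_ineq s N))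
  refine ⟨N₀, fun N hN => ⟨fun s => ?_, ?_⟩⟩
  · refine le_trans ?_ (key N hN s)
    have h1 : (Ico s (s + N)).filter (fun n => a n = 0) ⊆
        insert s (((Ico s (s + N)).filter (fun n => a (n + 1) = 0)).image (· + 1)) := by
      intro n hn
      rw [Finset.mem_filter, Finset.mem_Ico] at hn
      rw [Finset.mem_insert, Finset.mem_image]
      rcases Nat.eq_or_lt_of_le hn.1.1 with h | h
      · exact Or.inl h.symm
      · right
        refine ⟨n - 1, ?_, by omega⟩
        rw [Finset.mem_filter, Finset.mem_Ico]
        refine ⟨by omega, ?_⟩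
        rw [Nat.sub_add_cancel (by omega)]
        exact hn.2
    have h2 := (Finset.card_le_card h1).trans (Finset.card_insert_le _ _)
    have h3 := Finset.card_image_le
      (s := (Ico s (s + N)).filter (fun n => a (n + 1) = 0)) (f := (· + 1))
    have h4 : ((Ico s (s + N)).filter (fun n => a n = 0)).card ≤
        ((Ico s (s + N)).filter (fun n => a (n + 1) = 0)).card + 1 := by omega
    exact_mod_cast h4
  · refine le_trans ?_ (key N hN 0)
    have h1 : (range N).image a ⊆ ((Ico 0 (0 + N)).filter (fun n => a (n + 1) = 0)).image a := by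
      intro v hv
      rw [Finset.mem_image] at hv
      have hex : ∃ n, n < N ∧ a n = v := by
        obtain ⟨n, hn, hn2⟩ := hv
        exact ⟨n, Finset.mem_range.mp hn, hn2⟩
      classical
      obtain ⟨h2, h3⟩ := Nat.find_spec hex
      rw [Finset.mem_image]
      refine ⟨Nat.find hex, ?_, h3⟩
      rw [Finset.mem_filter, Finset.mem_Ico]
      refine ⟨by omega, Pool.Agent.Work.MP_10bfef_nt_helper63.zero_of_new ?_⟩
      intro j hj hj2
      exact Nat.find_min hex hj ⟨by omega, by rw [hj2, h3]⟩
    have h2 := (Finset.card_le_card h1).trans Finset.card_image_le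
    have h3 : ((range N).image a).card ≤
        ((Ico 0 (0 + N)).filter (fun n => a (n + 1) = 0)).card + 1 := by omega
    exact_mod_cast h3

end Pool.Agent.Results.MP_10bfef_nt.FewValues
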