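import Pool.Agent.Work.MP_10bfef_nt_helper63.Large

/-!
# Van Eck's sequence: runs of large values
-/

namespace Pool.Agent.Results.MP_10bfef_nt.LargeRuns

open N913ddd84

/-- For every `N` there is `M` such that every block of `M + N` consecutive terms of Van Eck's
sequence contains `N` consecutive terms which are all larger than `N`. -/
theorem result (N : ℕ) : ∃ M : ℕ, ∀ s, ∃ n, s ≤ n ∧ n ≤ s + M ∧ ∀ i < N, N < a (n + i) :=
  Pool.Agent.Work.MP_10bfef_nt_helper63.large_runs N

end Pool.Agent.Results.MP_10bfef_nt.LargeRuns
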