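import Pool.Agent.Work.MP_10bfef_nt_helper63.Asymp

/-!
# Van Eck's sequence: every window has many distinct values
-/

namespace Pool.Agent.Results.MP_10bfef_nt.ManyValues

open N913ddd84 Finset

/-- (1) If `D` is the number of distinct values among `N` consecutive terms of Van Eck's sequence
then `N ≤ 2 D^(D+1)`. (2) Uniformly in the window, `D ≥ (1 - ε) log N / log log N` for large `N`.
(3) For large `x`, at least `(1 - ε) log x / log log x` of the numbers `0, ..., x - 1` occur in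
the sequence. -/
theorem result :
    (∀ s N : ℕ, N ≤ 2 * ((Ico s (s + N)).image a).card ^ (((Ico s (s + N)).image a).card + 1)) ∧
    (∀ ε : ℝ, 0 < ε → ∃ N₀ : ℕ, ∀ N : ℕ, N₀ ≤ N → ∀ s : ℕ,
      (1 - ε) * Real.log N / Real.log (Real.log N) ≤ ((Ico s (s + N)).image a).card) ∧
    (∀ ε : ℝ, 0 < ε → ∃ x₀ : ℕ, ∀ x : ℕ, x₀ ≤ x →
      (1 - ε) * Real.log x / Real.log (Real.log x) ≤ {m : ℕ | m < x ∧ ∃ n, a n = m}.ncard) := by
  have h2 : ∀ ε : ℝ, 0 < ε → ∃ N₀ : ℕ, ∀ N : ℕ, N₀ ≤ N → ∀ s : ℕ,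
      (1 - ε) * Real.log N / Real.log (Real.log N) ≤ ((Ico s (s + N)).image a).card := by
    intro ε hε
    obtain ⟨N₀, hN₀⟩ := Pool.Agent.Work.MP_10bfef_nt_helper63.asymp_lower ε hε
    exact ⟨N₀, fun N hN s =>
      hN₀ N hN _ (Pool.Agent.Work.MP_10bfef_nt_helper63.card_bound s N)⟩
  refine ⟨Pool.Agent.Work.MP_10bfef_nt_helper63.card_bound, h2, ?_⟩
  intro ε hε
  obtain ⟨N₀, hN₀⟩ := h2 ε hε
  refine ⟨N₀, fun x hx => (hN₀ x hx 0).trans ?_⟩
  rw [← Set.ncard_coe_finset]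
  have hfin : {m : ℕ | m < x ∧ ∃ n, a n = m}.Finite :=
    (Set.finite_lt_nat x).subset (fun m hm => hm.1)
  have hsub : (((Ico 0 (0 + x)).image a : Finset ℕ) : Set ℕ) ⊆
      {m : ℕ | m < x ∧ ∃ n, a n = m} := by
    intro m hm
    rw [Finset.mem_coe, Finset.mem_image] at hm
    obtain ⟨n, hn, rfl⟩ := hm
    rw [Finset.mem_Ico] at hn
    refine ⟨?_, n, rfl⟩
    rcases n with _ | n
    · show 0 < x
      omega
    · have := Pool.Agent.Work.MP_10bfef_nt_helper63.a_le n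
      omega
  exact_mod_cast Set.ncard_le_ncard hsub hfin

end Pool.Agent.Results.MP_10bfef_nt.ManyValues
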