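import Pool.Agent.Work.MP_10bfef_nt_recip.Sum

/-!
# Van Eck's sequence: either infinitely many values have positive upper density, or none has and
the reciprocals of the attained values have infinite sum
-/

namespace Pool.Agent.Results.MP_10bfef_nt.ReciprocalSum

open N913ddd84 Finset

/-- `m` has positive upper density in Van Eck's sequence: for some `δ > 0` there are arbitrarily
large `N` such that at least `δ N` of the terms `a 0, ..., a (N-1)` are equal to `m`. -/
def PosUpperDensity (m : ℕ) : Prop :=
  ∃ δ : ℝ, 0 < δ ∧ ∀ N₀ : ℕ, ∃ N : ℕ, N₀ ≤ N ∧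
    δ * N ≤ (((range N).filter (fun n => a n = m)).card : ℝ)

/-- Either no value has positive upper density and the reciprocals of the positive values of the
sequence have infinite sum, or infinitely many values have positive upper density and their
reciprocals have sum at least one. -/
theorem result :
    ((∀ m : ℕ, ¬ PosUpperDensity m) ∧
      ∀ C : ℝ, ∃ T : Finset ℕ, (∀ v ∈ T, 0 < v ∧ ∃ n, a n = v) ∧ C ≤ ∑ v ∈ T, (1 : ℝ) / v) ∨
    ({m : ℕ | PosUpperDensity m}.Infinite ∧
      ∀ c : ℝ, c < 1 →
        ∃ T : Finset ℕ, (∀ v ∈ T, 0 < v ∧ PosUpperDensity v) ∧ c ≤ ∑ v ∈ T, (1 : ℝ) / v) := by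
  classical
  have hP : {m : ℕ | PosUpperDensity m} = Pool.Agent.Work.MP_10bfef_nt_recip.PosUpper := rfl
  rcases Pool.Agent.Work.MP_10bfef_nt_recip.empty_or_infinite with h | h
  · left
    refine ⟨fun m hm => ?_, fun C => ?_⟩
    · have h1 : m ∈ Pool.Agent.Work.MP_10bfef_nt_recip.PosUpper := hm
      rw [h] at h1
      exact h1
    · by_contra hc
      push Not at hc
      apply Pool.Agent.Work.MP_10bfef_nt_recip.not_summable h
      rw [← Function.comp_def (fun v : ℕ => (1 : ℝ) / (v : ℝ)) (fun v : Set.range a => (v : ℕ)),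
        summable_subtype_iff_indicator]
      apply summable_of_sum_le (c := C)
      · intro v
        apply Set.indicator_nonneg
        intro x _
        positivity
      · intro u
        have h1 := hc (u.filter (fun v => 0 < v ∧ ∃ n, a n = v)) (fun v hv => (mem_filter.mp hv).2)
        refine le_trans (le_of_eq ?_) h1.le
        rw [Finset.sum_filter]
        apply Finset.sum_congr rfl
        intro v _
        by_cases h2 : v ∈ Set.range a
        · rw [Set.indicator_of_mem h2]
          by_cases h3 : 0 < v
          · rw [if_pos ⟨h3, h2⟩]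
          · obtain rfl : v = 0 := by omega
            rw [if_neg (fun h => h3 h.1)]
            simp
        · rw [Set.indicator_of_notMem h2, if_neg (fun h => h2 h.2)]
  · right
    refine ⟨h, fun c hc => ?_⟩
    by_contra hcon
    push Not at hcon
    set P := Pool.Agent.Work.MP_10bfef_nt_recip.PosUpper with hPdef
    have h0 : (0 : ℕ) ∉ P := Pool.Agent.Work.MP_10bfef_nt_recip.zero_notMem
    have hle : ∀ u : Finset P, ∑ v ∈ u, (1 : ℝ) / ((v : ℕ) : ℝ) ≤ c := by
      intro u
      have h1 := hcon (u.image (fun v : P => (v : ℕ))) (fun v hv => by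
        rw [Finset.mem_image] at hv
        obtain ⟨w, _, rfl⟩ := hv
        refine ⟨Nat.pos_of_ne_zero (fun h2 => h0 ?_), w.2⟩
        rw [← h2]
        exact w.2)
      rw [Finset.sum_image (fun x _ y _ hxy => Subtype.ext hxy)] at h1
      exact h1.le
    have hs : Summable (fun v : P => (1 : ℝ) / ((v : ℕ) : ℝ)) :=
      summable_of_sum_le (fun v => by positivity) hle
    have h1 := Pool.Agent.Work.MP_10bfef_nt_recip.one_le_sum h.nonempty hs
    have h2 : ∑' v : P, (1 : ℝ) / ((v : ℕ) : ℝ) ≤ c := hs.tsum_le_of_sum_le hle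
    linarith

end Pool.Agent.Results.MP_10bfef_nt.ReciprocalSum
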